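import Pool.Agent.TH537.EQ.Defs

/-!
# Equality in the Rogers–Shephard inequality for a cone (helper352)

If `|T| ≤ |conv(T/2 ∪ -T/2)|` for the truncated cone `T = {x ∈ C | ⟨x,e⟩ ≤ 1}`, then `C` is a
lattice cone.
-/

set_option autoImplicit false

open MeasureTheory Set
open scoped ENNReal Pointwise Matrix

namespace Pool.Agent.TH352.EQ

open Pool.Agent.TH537.EQ

variable {N : ℕ} {C : Set (Fin N → ℝ)} {e : Fin N → ℝ}

lemma zero_mem (hC : CN C) : (0 : Fin N → ℝ) ∈ C := by
  obtain ⟨x, hx⟩ := hC.int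
  have := hC.smul 0 le_rfl x (interior_subset hx)
  simpa using this

lemma add_mem (hC : CN C) {x y : Fin N → ℝ} (hx : x ∈ C) (hy : y ∈ C) : x + y ∈ C := by
  have h := hC.convex hx hy (by norm_num : (0:ℝ) ≤ 1/2) (by norm_num : (0:ℝ) ≤ 1/2) (by norm_num)
  have h2 := hC.smul 2 (by norm_num) _ h
  have : (2:ℝ) • ((1/2 : ℝ) • x + (1/2 : ℝ) • y) = x + y := by
    rw [smul_add, smul_smul, smul_smul]; norm_num
  rwa [this] at h2

lemma nonneg (he : Pos C e) {x : Fin N → ℝ} (hx : x ∈ C) : 0 ≤ x ⬝ᵥ e := by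
  by_cases h : x = 0
  · simp [h]
  · exact (he x hx h).le

lemma cont_dot (e : Fin N → ℝ) : Continuous fun x : Fin N → ℝ => x ⬝ᵥ e := by
  unfold dotProduct
  fun_prop

/-- compactness of the truncations -/
lemma compact_trunc (hC : CN C) (he : Pos C e) (t : ℝ) :
    IsCompact {x | x ∈ C ∧ x ⬝ᵥ e ≤ t} := by
  have hcl : IsClosed {x : Fin N → ℝ | x ∈ C ∧ x ⬝ᵥ e ≤ t} :=
    hC.closed.inter (isClosed_le (cont_dot e) continuous_const)
  -- a lower bound on the unit sphere
  have hS : IsCompact (C ∩ Metric.sphere (0 : Fin N → ℝ) 1) :=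
    (isCompact_sphere _ _).inter_left hC.closed
  obtain ⟨δ, hδ, hδ'⟩ : ∃ δ : ℝ, 0 < δ ∧ ∀ x ∈ C ∩ Metric.sphere (0 : Fin N → ℝ) 1,
      δ ≤ x ⬝ᵥ e := by
    rcases (C ∩ Metric.sphere (0 : Fin N → ℝ) 1).eq_empty_or_nonempty with h | h
    · exact ⟨1, one_pos, by simp [h]⟩
    · obtain ⟨x, hx, hmin⟩ := hS.exists_isMinOn h (cont_dot e).continuousOn
      refine ⟨x ⬝ᵥ e, he x hx.1 ?_, fun y hy => hmin hy⟩
      rintro rfl
      simpa using hx.2
  refine Metric.isCompact_of_isClosed_isBounded hcl ?_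
  refine (Metric.isBounded_iff_subset_closedBall 0).2 ⟨t / δ, ?_⟩
  rintro x ⟨hx, hxt⟩
  rw [mem_closedBall_zero_iff]
  by_cases h0 : x = 0
  · subst h0
    simp only [zero_dotProduct] at hxt
    simpa using div_nonneg hxt hδ.le
  · have hn : 0 < ‖x‖ := norm_pos_iff.2 h0
    have h1 : (‖x‖⁻¹ • x) ∈ C ∩ Metric.sphere (0 : Fin N → ℝ) 1 := by
      refine ⟨hC.smul _ (by positivity) x hx, ?_⟩
      rw [mem_sphere_zero_iff_norm, norm_smul, norm_inv, norm_norm]
      field_simp
    have h2 := hδ' _ h1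
    rw [smul_dotProduct, smul_eq_mul] at h2
    rw [le_div_iff₀ hδ]
    have h3 : ‖x‖ * δ ≤ ‖x‖ * (‖x‖⁻¹ * (x ⬝ᵥ e)) := by gcongr
    rw [← mul_assoc, mul_inv_cancel₀ hn.ne', one_mul] at h3
    linarith

/-- existence of the minimal decomposition -/
lemma exists_min (hC : CN C) (he : Pos C e) (z : Fin N → ℝ) :
    ∃ b : Fin N → ℝ, b ∈ C ∧ b + z ∈ C ∧ ∀ b' ∈ C, b' + z ∈ C → b ⬝ᵥ e ≤ b' ⬝ᵥ e := by
  obtain ⟨c, hc⟩ := hC.int
  -- nonemptiness
  obtain ⟨b₀, hb₀, hb₀'⟩ : ∃ b₀ ∈ C, b₀ + z ∈ C := by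
    have ht : Filter.Tendsto (fun t : ℝ => c + t⁻¹ • z) Filter.atTop (nhds (c + (0:ℝ) • z)) :=
      tendsto_const_nhds.add (tendsto_inv_atTop_zero.smul_const z)
    rw [zero_smul, add_zero] at ht
    have hev := ht.eventually (mem_interior_iff_mem_nhds.1 hc)
    obtain ⟨t, ht1, ht2⟩ := (hev.and (Filter.eventually_gt_atTop 0)).exists
    refine ⟨t • c, hC.smul t ht2.le c (interior_subset hc), ?_⟩
    have h := hC.smul t ht2.le _ ht1
    rwa [smul_add, smul_smul, mul_inv_cancel₀ ht2.ne', one_smul] at h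
  have hK : IsCompact ({x | x ∈ C ∧ x ⬝ᵥ e ≤ b₀ ⬝ᵥ e} ∩ {x | x + z ∈ C}) :=
    (compact_trunc hC he _).inter_right (hC.closed.preimage (continuous_id.add continuous_const))
  obtain ⟨b, hb, hmin⟩ := hK.exists_isMinOn ⟨b₀, ⟨hb₀, le_rfl⟩, hb₀'⟩ (cont_dot e).continuousOn
  refine ⟨b, hb.1.1, hb.2, fun b' h1 h2 => ?_⟩
  by_cases h3 : b' ⬝ᵥ e ≤ b₀ ⬝ᵥ e
  · exact hmin ⟨⟨h1, h3⟩, h2⟩
  · exact (hb.1.2).trans (not_le.1 h3).le

/-- the sublevel sets of the norm -/
def SS (C : Set (Fin N → ℝ)) (e : Fin N → ℝ) (t : ℝ) : Set (Fin N → ℝ) :=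
  {z | ∃ b ∈ C, b + z ∈ C ∧ (z + (2:ℝ) • b) ⬝ᵥ e ≤ t}

lemma SS_compact (hC : CN C) (he : Pos C e) (t : ℝ) : IsCompact (SS C e t) := by
  have h1 : IsCompact (({x | x ∈ C ∧ x ⬝ᵥ e ≤ t} ×ˢ {x | x ∈ C ∧ x ⬝ᵥ e ≤ t}) ∩
      {p : (Fin N → ℝ) × (Fin N → ℝ) | (p.1 + p.2) ⬝ᵥ e ≤ t}) :=
    ((compact_trunc hC he t).prod (compact_trunc hC he t)).inter_right
      (isClosed_le ((cont_dot e).comp (continuous_fst.add continuous_snd)) continuous_const)
  have h2 := h1.image (f := fun p : (Fin N → ℝ) × (Fin N → ℝ) => p.1 - p.2)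
    (continuous_fst.sub continuous_snd)
  convert h2 using 1
  ext z
  constructor
  · rintro ⟨b, hb, hbz, hle⟩
    have hsum : (z + (2:ℝ) • b) = (b + z) + b := by rw [two_smul]; abel
    rw [hsum, add_dotProduct] at hle
    have hn1 := nonneg he hb
    have hn2 := nonneg he hbz
    refine ⟨(b + z, b), ⟨⟨⟨hbz, by linarith⟩, ⟨hb, by linarith⟩⟩, ?_⟩, by simp⟩
    show (b + z + b) ⬝ᵥ e ≤ t
    rw [add_dotProduct]
    linarith
  · rintro ⟨⟨a, b⟩, ⟨⟨⟨ha, -⟩, ⟨hb, -⟩⟩, hle⟩, rfl⟩
    replace hle : (a + b) ⬝ᵥ e ≤ t := hle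
    refine ⟨b, hb, by simpa using ha, ?_⟩
    have hsum : (a - b + (2:ℝ) • b) = a + b := by rw [two_smul]; abel
    simpa [hsum] using hle

lemma SS_smul (hC : CN C) {t : ℝ} (ht : 0 < t) : SS C e t = t • SS C e 1 := by
  ext z
  rw [Set.mem_smul_set_iff_inv_smul_mem₀ ht.ne']
  constructor
  · rintro ⟨b, hb, hbz, hle⟩
    refine ⟨t⁻¹ • b, hC.smul _ (by positivity) b hb, ?_, ?_⟩
    · rw [← smul_add]; exact hC.smul _ (by positivity) _ hbz
    · rw [smul_comm (2:ℝ) t⁻¹ b, ← smul_add, smul_dotProduct, smul_eq_mul, inv_mul_le_iff₀ ht]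
      simpa using hle
  · rintro ⟨b, hb, hbz, hle⟩
    refine ⟨t • b, hC.smul _ ht.le b hb, ?_, ?_⟩
    · have := hC.smul t ht.le _ hbz
      rwa [smul_add, smul_smul, mul_inv_cancel₀ ht.ne', one_smul] at this
    · have h3 : z + (2:ℝ) • t • b = t • (t⁻¹ • z + (2:ℝ) • b) := by
        rw [smul_add, smul_smul t t⁻¹ z, mul_inv_cancel₀ ht.ne', one_smul, smul_comm (2:ℝ) t b]
      rw [h3, smul_dotProduct, smul_eq_mul]
      calc t * ((t⁻¹ • z + (2:ℝ) • b) ⬝ᵥ e) ≤ t * 1 := by gcongr
        _ = t := mul_one t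

lemma SS_convex (hC : CN C) (t : ℝ) : Convex ℝ (SS C e t) := by
  rintro x ⟨b, hb, hbz, hle⟩ y ⟨b', hb', hbz', hle'⟩ s r hs hr hsr
  refine ⟨s • b + r • b', hC.convex hb hb' hs hr hsr, ?_, ?_⟩
  · have := hC.convex hbz hbz' hs hr hsr
    convert this using 1
    rw [smul_add, smul_add]; abel
  · have h3 : s • x + r • y + (2:ℝ) • (s • b + r • b') =
        s • (x + (2:ℝ) • b) + r • (y + (2:ℝ) • b') := by
      rw [smul_add, smul_add, smul_add, smul_comm (2:ℝ) s b, smul_comm (2:ℝ) r b']; abel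
    rw [h3, add_dotProduct, smul_dotProduct, smul_dotProduct, smul_eq_mul, smul_eq_mul]
    calc s * ((x + (2:ℝ) • b) ⬝ᵥ e) + r * ((y + (2:ℝ) • b') ⬝ᵥ e) ≤ s * t + r * t := by gcongr
      _ = t := by rw [← add_mul, hsr, one_mul]

lemma HT_subset (hC : CN C) (e : Fin N → ℝ) : HT C e (1 / 2) ⊆ SS C e (1 / 2) := by
  refine convexHull_min ?_ (SS_convex hC _)
  rintro x (⟨a, ⟨ha, hle⟩, rfl⟩ | ⟨a, ⟨ha, hle⟩, rfl⟩)
  · refine ⟨0, zero_mem hC, ?_, ?_⟩
    · simp only [zero_add]
      exact hC.smul _ (by norm_num) a ha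
    · simp only [smul_zero, add_zero, smul_dotProduct, smul_eq_mul]
      linarith
  · refine ⟨(1/2 : ℝ) • a, hC.smul _ (by norm_num) a ha, ?_, ?_⟩
    · have : (1/2 : ℝ) • a + (fun x => -(1/2 : ℝ) • x) a = 0 := by
        simp only [neg_smul]; abel
      simpa [this] using zero_mem hC
    · simp only [add_dotProduct, smul_dotProduct, smul_eq_mul, neg_smul, neg_dotProduct]
      linarith

/-- the constant `∫₀^∞ tᴺ e^{-t} dt` -/
noncomputable def cN (N : ℕ) : ℝ≥0∞ := ∫⁻ t in Ioi (0:ℝ), ENNReal.ofReal (Real.exp (-t) * t ^ N)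

lemma cN_ne_top (N : ℕ) : cN N ≠ ∞ := by
  have h := Real.GammaIntegral_convergent (s := N + 1) (by positivity)
  have h2 : IntegrableOn (fun t : ℝ => Real.exp (-t) * t ^ N) (Ioi 0) := by
    refine h.congr_fun (fun t ht => ?_) measurableSet_Ioi
    simp [Real.rpow_natCast]
  exact (Integrable.lintegral_lt_top h2).ne

lemma exp_layer {r : ℝ} (hr : 0 ≤ r) : ENNReal.ofReal (Real.exp (-r)) =
    ∫⁻ t in Ioi (0:ℝ), (Ici r).indicator (fun t => ENNReal.ofReal (Real.exp (-t))) t := by
  rw [lintegral_indicator measurableSet_Ici, Measure.restrict_restrict measurableSet_Ici]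
  have h1 : (Ici r ∩ Ioi (0:ℝ) : Set ℝ) =ᵐ[volume] Ioi r := by
    rcases hr.eq_or_lt with h | h
    · subst h
      have : (Ici (0:ℝ) ∩ Ioi 0) = Ioi 0 := inter_eq_right.2 Ioi_subset_Ici_self
      exact Filter.EventuallyEq.of_eq this
    · have : (Ici r ∩ Ioi (0:ℝ)) = Ici r := inter_eq_left.2 fun x hx => lt_of_lt_of_le h hx
      rw [this]
      exact Ioi_ae_eq_Ici.symm
  rw [Measure.restrict_congr_set h1, ← integral_exp_neg_Ioi r,
    ofReal_integral_eq_lintegral_ofReal]
  · have h := exp_neg_integrableOn_Ioi r one_pos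
    simp only [neg_mul, one_mul] at h
    exact h
  · exact Filter.Eventually.of_forall fun x => (Real.exp_pos _).le

lemma layer {g : (Fin N → ℝ) → ℝ} (hg : Measurable g) {D : Set (Fin N → ℝ)}
    (hD : MeasurableSet D) (h0 : ∀ x ∈ D, 0 ≤ g x) (S : Set (Fin N → ℝ))
    (hS : ∀ t : ℝ, 0 < t → {x | g x ≤ t} ∩ D = t • S) :
    ∫⁻ x in D, ENNReal.ofReal (Real.exp (-(g x))) = cN N * volume S := by
  have hmeas : Measurable (Function.uncurry fun (x : Fin N → ℝ) (t : ℝ) =>
      (Ici (g x)).indicator (fun t => ENNReal.ofReal (Real.exp (-t))) t) := by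
    have : (Function.uncurry fun (x : Fin N → ℝ) (t : ℝ) =>
        (Ici (g x)).indicator (fun t => ENNReal.ofReal (Real.exp (-t))) t) =
        {p : (Fin N → ℝ) × ℝ | g p.1 ≤ p.2}.indicator
          (fun p => ENNReal.ofReal (Real.exp (-p.2))) := by
      ext ⟨x, t⟩
      by_cases h : g x ≤ t
      · rw [Function.uncurry_apply_pair, indicator_of_mem (show t ∈ Ici (g x) from h),
          indicator_of_mem (show (x, t) ∈ {p : (Fin N → ℝ) × ℝ | g p.1 ≤ p.2} from h)]
      · rw [Function.uncurry_apply_pair, indicator_of_notMem (show t ∉ Ici (g x) from h),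
          indicator_of_notMem (show (x, t) ∉ {p : (Fin N → ℝ) × ℝ | g p.1 ≤ p.2} from h)]
    rw [this]
    refine Measurable.indicator (by fun_prop) ?_
    exact measurableSet_le (hg.comp measurable_fst) measurable_snd
  calc ∫⁻ x in D, ENNReal.ofReal (Real.exp (-(g x)))
      = ∫⁻ x in D, ∫⁻ t in Ioi (0:ℝ),
          (Ici (g x)).indicator (fun t => ENNReal.ofReal (Real.exp (-t))) t :=
        setLIntegral_congr_fun hD fun x hx => exp_layer (h0 x hx)
    _ = ∫⁻ t in Ioi (0:ℝ), ∫⁻ x in D,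
          (Ici (g x)).indicator (fun t => ENNReal.ofReal (Real.exp (-t))) t :=
        lintegral_lintegral_swap hmeas.aemeasurable
    _ = ∫⁻ t in Ioi (0:ℝ), ENNReal.ofReal (Real.exp (-t) * t ^ N) * volume S := by
        refine setLIntegral_congr_fun measurableSet_Ioi fun t ht => ?_
        have ht' : (0:ℝ) < t := ht
        have h1 : ∀ x, (Ici (g x)).indicator (fun t => ENNReal.ofReal (Real.exp (-t))) t =
            {x | g x ≤ t}.indicator (fun _ => ENNReal.ofReal (Real.exp (-t))) x := by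
          intro x
          by_cases h : g x ≤ t
          · rw [indicator_of_mem (show t ∈ Ici (g x) from h),
              indicator_of_mem (show x ∈ {x | g x ≤ t} from h)]
          · rw [indicator_of_notMem (show t ∉ Ici (g x) from h),
              indicator_of_notMem (show x ∉ {x | g x ≤ t} from h)]
        simp only [h1]
        have hm : MeasurableSet {x | g x ≤ t} := measurableSet_le hg measurable_const
        rw [lintegral_indicator hm, Measure.restrict_restrict hm, hS t ht', setLIntegral_const,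
          Measure.addHaar_smul, ← mul_assoc, ENNReal.ofReal_mul (Real.exp_pos _).le]
        congr 3
        rw [Module.finrank_fintype_fun_eq_card, Fintype.card_fin, abs_of_pos (pow_pos ht' _)]
    _ = cN N * volume S := lintegral_mul_const _ (by fun_prop)

/-- a minimal decomposition -/
noncomputable def bz (hC : CN C) (he : Pos C e) (z : Fin N → ℝ) : Fin N → ℝ :=
  (exists_min hC he z).choose

lemma bz_mem (hC : CN C) (he : Pos C e) (z : Fin N → ℝ) : bz hC he z ∈ C :=
  (exists_min hC he z).choose_spec.1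

lemma bz_add (hC : CN C) (he : Pos C e) (z : Fin N → ℝ) : bz hC he z + z ∈ C :=
  (exists_min hC he z).choose_spec.2.1

lemma bz_min (hC : CN C) (he : Pos C e) (z : Fin N → ℝ) {b : Fin N → ℝ} (hb : b ∈ C)
    (hbz : b + z ∈ C) : bz hC he z ⬝ᵥ e ≤ b ⬝ᵥ e :=
  (exists_min hC he z).choose_spec.2.2 b hb hbz

/-- the norm with unit ball `T - T`-like set -/
noncomputable def mz (hC : CN C) (he : Pos C e) (z : Fin N → ℝ) : ℝ :=
  (z + (2:ℝ) • bz hC he z) ⬝ᵥ e

lemma mz_le (hC : CN C) (he : Pos C e) (t : ℝ) : {z | mz hC he z ≤ t} = SS C e t := by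
  ext z
  constructor
  · intro h
    exact ⟨bz hC he z, bz_mem hC he z, bz_add hC he z, h⟩
  · rintro ⟨b, hb, hbz, hle⟩
    refine le_trans ?_ hle
    have := bz_min hC he z hb hbz
    rw [mz, add_dotProduct, add_dotProduct, smul_dotProduct, smul_dotProduct, smul_eq_mul,
      smul_eq_mul]
    linarith

lemma mz_nonneg (hC : CN C) (he : Pos C e) (z : Fin N → ℝ) : 0 ≤ mz hC he z := by
  have h1 := nonneg he (bz_mem hC he z)
  have h2 := nonneg he (bz_add hC he z)
  rw [add_dotProduct] at h2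
  rw [mz, add_dotProduct, smul_dotProduct, smul_eq_mul]
  linarith

lemma mz_measurable (hC : CN C) (he : Pos C e) : Measurable (mz hC he) := by
  refine measurable_of_Iic fun t => ?_
  have : mz hC he ⁻¹' Iic t = SS C e t := mz_le hC he t
  rw [this]
  exact (SS_compact hC he t).measurableSet

lemma meas_C (hC : CN C) : MeasurableSet C := hC.closed.measurableSet

/-- `∫_C e^{-⟨x,e⟩}` -/
lemma int_C (hC : CN C) (he : Pos C e) :
    ∫⁻ x in C, ENNReal.ofReal (Real.exp (-(x ⬝ᵥ e))) = cN N * volume (T C e) := by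
  refine layer (cont_dot e).measurable (meas_C hC) (fun x hx => nonneg he hx) _ fun t ht => ?_
  ext x
  rw [Set.mem_smul_set_iff_inv_smul_mem₀ ht.ne']
  constructor
  · rintro ⟨h1, h2⟩
    replace h1 : x ⬝ᵥ e ≤ t := h1
    refine ⟨hC.smul _ (by positivity) x h2, ?_⟩
    rw [smul_dotProduct, smul_eq_mul, inv_mul_le_iff₀ ht]
    simpa using h1
  · rintro ⟨h1, h2⟩
    rw [smul_dotProduct, smul_eq_mul, inv_mul_le_iff₀ ht] at h2
    have h3 := hC.smul t ht.le _ h1
    rw [smul_smul, mul_inv_cancel₀ ht.ne', one_smul] at h3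
    exact ⟨by simpa using h2, h3⟩

/-- `∫_C e^{-2⟨x,e⟩}` -/
lemma int_C2 (hC : CN C) (he : Pos C e) :
    ∫⁻ x in C, ENNReal.ofReal (Real.exp (-(2 * (x ⬝ᵥ e)))) =
      cN N * volume ((1 / 2 : ℝ) • T C e) := by
  refine layer ((cont_dot e).measurable.const_mul 2) (meas_C hC)
    (fun x hx => mul_nonneg (by norm_num) (nonneg he hx)) _ fun t ht => ?_
  ext x
  rw [smul_smul, Set.mem_smul_set_iff_inv_smul_mem₀ (by positivity)]
  constructor
  · rintro ⟨h1, h2⟩
    replace h1 : 2 * (x ⬝ᵥ e) ≤ t := h1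
    refine ⟨hC.smul _ (by positivity) x h2, ?_⟩
    rw [smul_dotProduct, smul_eq_mul, inv_mul_le_iff₀ (by positivity)]
    linarith
  · rintro ⟨h1, h2⟩
    rw [smul_dotProduct, smul_eq_mul, inv_mul_le_iff₀ (by positivity)] at h2
    have h3 := hC.smul (t * (1 / 2)) (by positivity) _ h1
    rw [smul_smul, mul_inv_cancel₀ (by positivity), one_smul] at h3
    refine ⟨?_, h3⟩
    show 2 * (x ⬝ᵥ e) ≤ t
    linarith

/-- `∫ e^{-m}` -/
lemma int_mz (hC : CN C) (he : Pos C e) :
    ∫⁻ z, ENNReal.ofReal (Real.exp (-(mz hC he z))) = cN N * volume (SS C e 1) := by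
  rw [← setLIntegral_univ]
  refine layer (mz_measurable hC he) MeasurableSet.univ (fun x _ => mz_nonneg hC he x) _
    fun t ht => ?_
  rw [inter_univ, mz_le, SS_smul hC ht]

/-- `φ(x) = 1_C(x) e^{-⟨x,e⟩}` -/
noncomputable def phi (C : Set (Fin N → ℝ)) (e : Fin N → ℝ) (r : ℝ) : (Fin N → ℝ) → ℝ≥0∞ :=
  C.indicator fun x => ENNReal.ofReal (Real.exp (-(r * (x ⬝ᵥ e))))

lemma phi_measurable (hC : CN C) (r : ℝ) : Measurable (phi C e r) := by
  refine Measurable.indicator ?_ (meas_C hC)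
  have := (cont_dot e).measurable
  fun_prop

lemma phi_mul (hC : CN C) (he : Pos C e) (z b : Fin N → ℝ) (h : b - bz hC he z ∈ C) :
    phi C e 1 b * phi C e 1 (b + z) =
      ENNReal.ofReal (Real.exp (-(mz hC he z))) * phi C e 2 (b - bz hC he z) := by
  have h1 : b ∈ C := by
    have := add_mem hC h (bz_mem hC he z)
    rwa [sub_add_cancel] at this
  have h2 : b + z ∈ C := by
    have := add_mem hC h (bz_add hC he z)
    rwa [← add_assoc, sub_add_cancel] at this
  rw [phi, phi, indicator_of_mem h1, indicator_of_mem h2, indicator_of_mem h,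
    ← ENNReal.ofReal_mul (Real.exp_pos _).le, ← ENNReal.ofReal_mul (Real.exp_pos _).le,
    ← Real.exp_add, ← Real.exp_add]
  congr 2
  rw [mz, add_dotProduct, add_dotProduct, sub_dotProduct, smul_dotProduct, smul_eq_mul]
  ring

lemma phi_le (hC : CN C) (he : Pos C e) (z b : Fin N → ℝ) :
    ENNReal.ofReal (Real.exp (-(mz hC he z))) * phi C e 2 (b - bz hC he z) ≤
      phi C e 1 b * phi C e 1 (b + z) := by
  by_cases h : b - bz hC he z ∈ C
  · exact (phi_mul hC he z b h).ge
  · have : phi C e 2 (b - bz hC he z) = 0 := indicator_of_notMem h _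
    rw [this, mul_zero]
    exact zero_le

lemma phi_int1 (hC : CN C) (he : Pos C e) : ∫⁻ x, phi C e 1 x = cN N * volume (T C e) := by
  rw [phi, lintegral_indicator (meas_C hC), ← int_C hC he]
  simp

lemma phi_int2 (hC : CN C) (he : Pos C e) :
    ∫⁻ x, phi C e 2 x = cN N * volume ((1 / 2 : ℝ) • T C e) := by
  rw [phi, lintegral_indicator (meas_C hC), ← int_C2 hC he]

lemma T_compact (hC : CN C) (he : Pos C e) : IsCompact (T C e) := compact_trunc hC he 1

lemma int_F (hC : CN C) (he : Pos C e) :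
    ∫⁻ z, ∫⁻ b, phi C e 1 b * phi C e 1 (b + z) =
      (cN N * volume (T C e)) * (cN N * volume (T C e)) := by
  have hm := phi_measurable (e := e) hC 1
  have h1 : Measurable (Function.uncurry fun (z b : Fin N → ℝ) =>
      phi C e 1 b * phi C e 1 (b + z)) := by
    have : (Function.uncurry fun (z b : Fin N → ℝ) => phi C e 1 b * phi C e 1 (b + z)) =
        fun p : (Fin N → ℝ) × (Fin N → ℝ) => phi C e 1 p.2 * phi C e 1 (p.2 + p.1) := by
      ext ⟨a, b⟩; rfl
    rw [this]
    exact (hm.comp measurable_snd).mul (hm.comp (measurable_snd.add measurable_fst))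
  rw [lintegral_lintegral_swap h1.aemeasurable]
  have h2 : ∀ b : Fin N → ℝ, ∫⁻ z, phi C e 1 b * phi C e 1 (b + z) =
      phi C e 1 b * (cN N * volume (T C e)) := by
    intro b
    have h3 : Measurable fun z => phi C e 1 (b + z) := hm.comp (measurable_const_add b)
    rw [lintegral_const_mul _ h3,
      lintegral_add_left_eq_self (fun z => phi C e 1 z) b, phi_int1 hC he]
  simp only [h2]
  rw [lintegral_mul_const _ hm, phi_int1 hC he]

lemma int_G (hC : CN C) (he : Pos C e) (z : Fin N → ℝ) :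
    ∫⁻ b, ENNReal.ofReal (Real.exp (-(mz hC he z))) * phi C e 2 (b - bz hC he z) =
      ENNReal.ofReal (Real.exp (-(mz hC he z))) * (cN N * volume ((1 / 2 : ℝ) • T C e)) := by
  have hm := phi_measurable (e := e) hC 2
  have h3 : Measurable fun b => phi C e 2 (b - bz hC he z) := hm.comp (measurable_sub_const _)
  rw [lintegral_const_mul _ h3,
    lintegral_sub_right_eq_self (fun z => phi C e 2 z) (bz hC he z), phi_int2 hC he]

/-- equality in Rogers–Shephard: almost everywhere -/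
lemma ae_eq (hC : CN C) (he : Pos C e) (h : volume (T C e) ≤ volume (HT C e (1 / 2))) :
    ∀ᵐ z : Fin N → ℝ, ∀ b : Fin N → ℝ, b ∈ C → b + z ∈ C → b - bz hC he z ∈ C := by
  have hm1 := phi_measurable (e := e) hC 1
  have hm2 := phi_measurable (e := e) hC 2
  have hT : volume (T C e) ≠ ∞ := (T_compact hC he).measure_lt_top.ne
  have hfin : (cN N * volume (T C e)) * (cN N * volume (T C e)) ≠ ∞ :=
    ENNReal.mul_ne_top (ENNReal.mul_ne_top (cN_ne_top N) hT)
      (ENNReal.mul_ne_top (cN_ne_top N) hT)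
  have hle : ∀ z : Fin N → ℝ,
      ENNReal.ofReal (Real.exp (-(mz hC he z))) * (cN N * volume ((1 / 2 : ℝ) • T C e)) ≤
        ∫⁻ b, phi C e 1 b * phi C e 1 (b + z) := by
    intro z
    rw [← int_G hC he z]
    exact lintegral_mono fun b => phi_le hC he z b
  have hGint : ∫⁻ z, ENNReal.ofReal (Real.exp (-(mz hC he z))) *
      (cN N * volume ((1 / 2 : ℝ) • T C e)) =
      (cN N * volume (SS C e 1)) * (cN N * volume ((1 / 2 : ℝ) • T C e)) := by
    rw [lintegral_mul_const _ (by have := mz_measurable hC he; fun_prop), int_mz hC he]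
  have hcomp : ∫⁻ z, ∫⁻ b, phi C e 1 b * phi C e 1 (b + z) ≤
      ∫⁻ z, ENNReal.ofReal (Real.exp (-(mz hC he z))) *
        (cN N * volume ((1 / 2 : ℝ) • T C e)) := by
    rw [hGint, int_F hC he]
    have h1 : volume (T C e) ≤ volume (SS C e (1 / 2)) :=
      h.trans (measure_mono (HT_subset hC e))
    rw [SS_smul hC (by norm_num : (0:ℝ) < 1 / 2), Measure.addHaar_smul] at h1
    rw [Measure.addHaar_smul]
    calc cN N * volume (T C e) * (cN N * volume (T C e))
        ≤ cN N * volume (T C e) * (cN N *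
          (ENNReal.ofReal |(1 / 2 : ℝ) ^ Module.finrank ℝ (Fin N → ℝ)| * volume (SS C e 1))) := by
          gcongr
      _ = _ := by ring
  have hGfin : ∫⁻ z, ENNReal.ofReal (Real.exp (-(mz hC he z))) *
      (cN N * volume ((1 / 2 : ℝ) • T C e)) ≠ ∞ := by
    refine ne_top_of_le_ne_top ?_ (lintegral_mono hle)
    rw [int_F hC he]
    exact hfin
  have hFmeas : Measurable fun z : Fin N → ℝ => ∫⁻ b, phi C e 1 b * phi C e 1 (b + z) := by
    have : Measurable fun p : (Fin N → ℝ) × (Fin N → ℝ) =>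
        phi C e 1 p.2 * phi C e 1 (p.2 + p.1) :=
      (hm1.comp measurable_snd).mul (hm1.comp (measurable_snd.add measurable_fst))
    exact this.lintegral_prod_right'
  have hae := ae_eq_of_ae_le_of_lintegral_le (Filter.Eventually.of_forall hle) hGfin
    hFmeas.aemeasurable hcomp
  filter_upwards [hae] with z hz
  -- the inner equality
  have hI : volume ((1 / 2 : ℝ) • T C e) ≠ ∞ := by
    rw [Measure.addHaar_smul]
    exact ENNReal.mul_ne_top ENNReal.ofReal_ne_top hT
  have hinfin : ∫⁻ b, ENNReal.ofReal (Real.exp (-(mz hC he z))) * phi C e 2 (b - bz hC he z) ≠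
      ∞ := by
    rw [int_G hC he z]
    exact ENNReal.mul_ne_top ENNReal.ofReal_ne_top (ENNReal.mul_ne_top (cN_ne_top N) hI)
  have hin := ae_eq_of_ae_le_of_lintegral_le
    (Filter.Eventually.of_forall fun b => phi_le hC he z b) hinfin
    ((hm1.mul (hm1.comp (measurable_add_const z))).aemeasurable)
    (by rw [int_G hC he z]; exact hz.ge)
  -- convexity
  set X : Set (Fin N → ℝ) := {b | b ∈ C ∧ b + z ∈ C} with hX
  set Y : Set (Fin N → ℝ) := (fun b => b - bz hC he z) ⁻¹' C with hY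
  have hXcl : IsClosed X :=
    hC.closed.inter (hC.closed.preimage (continuous_id.add continuous_const))
  have hYcl : IsClosed Y := hC.closed.preimage (continuous_id.sub continuous_const)
  have hXconv : Convex ℝ X := by
    rintro x ⟨hx1, hx2⟩ y ⟨hy1, hy2⟩ s r hs hr hsr
    refine ⟨hC.convex hx1 hy1 hs hr hsr, ?_⟩
    have := hC.convex hx2 hy2 hs hr hsr
    convert this using 1
    have hz1 : z = s • z + r • z := by rw [← add_smul, hsr, one_smul]
    nth_rewrite 1 [hz1]
    rw [smul_add, smul_add]; abel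
  have hYX : Y ⊆ X := by
    intro b hb
    replace hb : b - bz hC he z ∈ C := hb
    refine ⟨?_, ?_⟩
    · have := add_mem hC hb (bz_mem hC he z)
      rwa [sub_add_cancel] at this
    · have := add_mem hC hb (bz_add hC he z)
      rwa [← add_assoc, sub_add_cancel] at this
  have hXint : (interior X).Nonempty := by
    obtain ⟨c, hc⟩ := hC.int
    refine ⟨c + bz hC he z, ?_⟩
    refine mem_interior.2 ⟨(fun b => b - bz hC he z) ⁻¹' (interior C), ?_, ?_, ?_⟩
    · exact (preimage_mono interior_subset).trans hYX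
    · exact isOpen_interior.preimage (continuous_id.sub continuous_const)
    · simpa using hc
  have hnull : volume (interior X \ Y) = 0 := by
    refine measure_mono_null ?_ (ae_iff.1 hin)
    rintro b ⟨hbX, hbY⟩ heq
    have hbX' := interior_subset hbX
    replace hbY : b - bz hC he z ∉ C := hbY
    have h1 : phi C e 2 (b - bz hC he z) = 0 := indicator_of_notMem hbY _
    have h2 : phi C e 1 b * phi C e 1 (b + z) ≠ 0 := by
      unfold phi
      rw [indicator_of_mem hbX'.1, indicator_of_mem hbX'.2]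
      exact mul_ne_zero (ENNReal.ofReal_pos.2 (Real.exp_pos _)).ne'
        (ENNReal.ofReal_pos.2 (Real.exp_pos _)).ne'
    apply h2
    replace heq : ENNReal.ofReal (Real.exp (-(mz hC he z))) * phi C e 2 (b - bz hC he z) =
      phi C e 1 b * phi C e 1 (b + z) := heq
    rw [← heq, h1, mul_zero]
  have hopen : IsOpen (interior X \ Y) := isOpen_interior.sdiff hYcl
  have hempty : interior X \ Y = ∅ := hopen.measure_eq_zero_iff volume |>.1 hnull
  have hsub : interior X ⊆ Y := sdiff_eq_empty.1 hempty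
  intro b hb hbz
  have hb' : b ∈ closure (interior X) := by
    rw [hXconv.closure_interior_eq_closure_of_nonempty_interior hXint]
    exact subset_closure ⟨hb, hbz⟩
  exact (closure_minimal hsub hYcl) hb'

lemma int_add (hC : CN C) {x y : Fin N → ℝ} (hx : x ∈ C) (hy : y ∈ interior C) :
    x + y ∈ interior C := by
  refine mem_interior.2 ⟨(fun b => b - x) ⁻¹' (interior C), ?_, ?_, ?_⟩
  · intro b hb
    have := add_mem hC (interior_subset hb) hx
    simpa using this
  · exact isOpen_interior.preimage (continuous_id.sub continuous_const)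
  · simpa using hy

/-- (RS) -/
theorem t_RS : S_RS := by
  intro N C e hC he h z₀
  have hae := ae_eq hC he h
  have hdense := Measure.dense_of_ae hae
  obtain ⟨z, hz⟩ : ∃ z, z = -z₀ := ⟨_, rfl⟩
  obtain ⟨u, hu, hlim⟩ := mem_closure_iff_seq_limit.1 (hdense z)
  obtain ⟨c, hc⟩ := hC.int
  -- a common upper bound
  have hb0 : ∀ r : ℝ, 0 < r → ∀ b ∈ C, b + z ∈ C →
      ∀ᶠ n in Filter.atTop, b + r • c + u n ∈ C := by
    intro r hr b hb hbz
    have h1 : b + z + r • c ∈ interior C := by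
      refine int_add hC hbz ?_
      refine mem_interior.2 ⟨(fun x => r⁻¹ • x) ⁻¹' (interior C), ?_, ?_, ?_⟩
      · intro x hx
        have := hC.smul r hr.le _ (interior_subset hx)
        rwa [smul_smul, mul_inv_cancel₀ hr.ne', one_smul] at this
      · exact isOpen_interior.preimage (continuous_const_smul _)
      · show r⁻¹ • r • c ∈ interior C
        rwa [smul_smul, inv_mul_cancel₀ hr.ne', one_smul]
    have h2 : Filter.Tendsto (fun n => b + r • c + u n) Filter.atTop
        (nhds (b + z + r • c)) := by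
      have := (tendsto_const_nhds (x := b + r • c)).add hlim
      rwa [add_right_comm] at this
    exact h2.eventually (mem_interior_iff_mem_nhds.1 h1)
  -- boundedness of the minimal decompositions
  have hev : ∀ᶠ n in Filter.atTop, bz hC he (u n) ∈
      {x | x ∈ C ∧ x ⬝ᵥ e ≤ (bz hC he z + (1:ℝ) • c) ⬝ᵥ e} := by
    filter_upwards [hb0 1 one_pos _ (bz_mem hC he z) (bz_add hC he z)] with n hn
    refine ⟨bz_mem hC he _, bz_min hC he _ ?_ hn⟩
    exact add_mem hC (bz_mem hC he z) (hC.smul _ zero_le_one _ (interior_subset hc))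
  obtain ⟨a, ha, φ, hφ, hta⟩ :=
    (compact_trunc hC he _).tendsto_subseq' hev.frequently
  have hlimφ : Filter.Tendsto (fun n => u (φ n)) Filter.atTop (nhds z) :=
    hlim.comp hφ.tendsto_atTop
  have haz : a + z ∈ C := by
    refine hC.closed.mem_of_tendsto (hta.add hlimφ) (Filter.Eventually.of_forall fun n => ?_)
    exact bz_add hC he (u (φ n))
  have key : ∀ b ∈ C, b + z ∈ C → b - a ∈ C := by
    intro b hb hbz
    -- first with `r • c`
    have h1 : ∀ r : ℝ, 0 < r → b + r • c - a ∈ C := by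
      intro r hr
      have h2 : Filter.Tendsto (fun n => b + r • c - bz hC he (u (φ n))) Filter.atTop
          (nhds (b + r • c - a)) := tendsto_const_nhds.sub hta
      refine hC.closed.mem_of_tendsto h2 ?_
      filter_upwards [hφ.tendsto_atTop.eventually (hb0 r hr b hb hbz)] with n hn
      refine hu (φ n) _ ?_ hn
      exact add_mem hC hb (hC.smul r hr.le _ (interior_subset hc))
    have h3 : Filter.Tendsto (fun r : ℝ => b + r • c - a) (nhdsWithin 0 (Ioi 0))
        (nhds (b + (0:ℝ) • c - a)) := by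
      have : Continuous fun r : ℝ => b + r • c - a := by fun_prop
      exact (this.tendsto 0).mono_left nhdsWithin_le_nhds
    rw [zero_smul, add_zero] at h3
    exact hC.closed.mem_of_tendsto h3 (Filter.eventually_of_mem self_mem_nhdsWithin
      fun r hr => h1 r hr)
  refine ⟨a, fun x => ⟨?_, ?_⟩⟩
  · rintro ⟨h1, h2⟩
    refine key x h1 ?_
    rwa [hz, ← sub_eq_add_neg]
  · intro hx
    refine ⟨?_, ?_⟩
    · have := add_mem hC hx ha.1
      rwa [sub_add_cancel] at this
    · have := add_mem hC hx haz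
      rwa [← add_assoc, sub_add_cancel, hz, ← sub_eq_add_neg] at this

end Pool.Agent.TH352.EQ
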